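import Mathlib

set_option autoImplicit false

namespace Pool.Agent.Results.MP_79f901_al.TreeNormaliser

/-- `g` is an automorphism of the binary rooted tree, whose vertices of level `n` are the words of
length `n` in the two letters `false, true` (`v` is an ancestor of `w` iff `v` is an initial segment
of `w`): a permutation of the vertices which preserves the levels and the ancestor relation. -/
def IsTreeAut (g : Equiv.Perm (List Bool)) : Prop :=
  (∀ v, (g v).length = v.length) ∧ ∀ v w, v <+: w ↔ g v <+: g w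

/-- The rigid stabiliser of the `n`-th level of `L`: the subgroup generated by the elements of `L`
which act trivially outside the subtree below some vertex `u` of level `n`. -/
def ristLevel (L : Subgroup (Equiv.Perm (List Bool))) (n : ℕ) : Subgroup (Equiv.Perm (List Bool)) :=
  Subgroup.closure {g | g ∈ L ∧ ∃ u : List Bool, u.length = n ∧ ∀ v, ¬ u <+: v → g v = v}

/-- `L` is a branch group acting on the binary rooted tree: a group of tree automorphisms,
transitive on every level, in which all level rigid stabilisers have finite index. -/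
def IsBranch (L : Subgroup (Equiv.Perm (List Bool))) : Prop :=
  (∀ g ∈ L, IsTreeAut g) ∧
  (∀ v w : List Bool, v.length = w.length → ∃ g ∈ L, g v = w) ∧
  ∀ n, ((ristLevel L n).subgroupOf L).index ≠ 0

/-! ### auxiliary facts -/

theorem ai (g : Equiv.Perm (List Bool)) (w : List Bool) : g (g⁻¹ w) = w := g.apply_symm_apply w
theorem ia (g : Equiv.Perm (List Bool)) (w : List Bool) : g⁻¹ (g w) = w := g.symm_apply_apply w

theorem mkAut {g : Equiv.Perm (List Bool)} (h1 : ∀ v, (g v).length = v.length)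
    (h2 : ∀ v w, v <+: w → g v <+: g w) (h3 : ∀ v w, v <+: w → g⁻¹ v <+: g⁻¹ w) : IsTreeAut g :=
  ⟨h1, fun v w => ⟨h2 v w, fun h => by simpa [ia] using h3 _ _ h⟩⟩

theorem aut_one : IsTreeAut 1 := ⟨fun _ => rfl, fun _ _ => Iff.rfl⟩

theorem aut_mul {g h : Equiv.Perm (List Bool)} (hg : IsTreeAut g) (hh : IsTreeAut h) :
    IsTreeAut (g * h) :=
  ⟨fun v => (hg.1 _).trans (hh.1 v), fun v w => (hh.2 v w).trans (hg.2 _ _)⟩

theorem aut_inv {g : Equiv.Perm (List Bool)} (hg : IsTreeAut g) : IsTreeAut g⁻¹ := by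
  refine ⟨fun v => ?_, fun v w => ?_⟩
  · have := hg.1 (g⁻¹ v); rw [ai] at this; exact this.symm
  · have := hg.2 (g⁻¹ v) (g⁻¹ w); rw [ai, ai] at this; exact this.symm

theorem eq_of_pre {u v w : List Bool} (h : u.length = v.length) (hu : u <+: w) (hv : v <+: w) :
    u = v :=
  (List.prefix_of_prefix_length_le hu hv h.le).eq_of_length h

/-- the action on the first two letters is the translation by `(a, b)` -/
def Cond (g : Equiv.Perm (List Bool)) (a b : Bool) : Prop :=
  ∀ x y t, ∃ t', g (x :: y :: t) = (xor x a) :: (xor y b) :: t'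

theorem cond_mul {g h : Equiv.Perm (List Bool)} {a b c d : Bool} (hg : Cond g a b)
    (hh : Cond h c d) : Cond (g * h) (xor a c) (xor b d) := by
  intro x y t
  obtain ⟨t', e⟩ := hh x y t
  obtain ⟨t'', e'⟩ := hg (xor x c) (xor y d) t'
  refine ⟨t'', ?_⟩
  rw [Equiv.Perm.mul_apply, e, e']
  cases x <;> cases y <;> cases a <;> cases b <;> cases c <;> cases d <;> rfl

theorem cond_inv {g : Equiv.Perm (List Bool)} {a b : Bool} (ha : IsTreeAut g) (hg : Cond g a b) :
    Cond g⁻¹ a b := by
  intro x y t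
  have hl : (g⁻¹ (x :: y :: t)).length = t.length + 2 := by
    rw [(aut_inv ha).1]; rfl
  match hs : g⁻¹ (x :: y :: t), hl with
  | p :: q :: r, _ =>
    obtain ⟨t', e⟩ := hg p q r
    have h2 := ai g (x :: y :: t)
    rw [hs, e] at h2
    simp only [List.cons.injEq] at h2
    refine ⟨r, ?_⟩
    obtain ⟨rfl, rfl, _⟩ := h2
    cases p <;> cases q <;> cases a <;> cases b <;> rfl

theorem cond_unique {g : Equiv.Perm (List Bool)} {a b c d : Bool} (hg : Cond g a b)
    (hh : Cond g c d) : a = c ∧ b = d := by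
  obtain ⟨t', e⟩ := hg false false []
  obtain ⟨t'', e'⟩ := hh false false []
  rw [e] at e'
  simp only [List.cons.injEq] at e'
  cases a <;> cases b <;> cases c <;> cases d <;> simp_all

/-- the group `L`: all tree automorphisms acting on level two through the Klein four group -/
def LL : Subgroup (Equiv.Perm (List Bool)) where
  carrier := {g | IsTreeAut g ∧ ∃ a b, Cond g a b}
  one_mem' := ⟨aut_one, false, false, fun x y t => ⟨t, by cases x <;> cases y <;> rfl⟩⟩
  mul_mem' := by
    rintro g h ⟨h1, a, b, h2⟩ ⟨h3, c, d, h4⟩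
    exact ⟨aut_mul h1 h3, _, _, cond_mul h2 h4⟩
  inv_mem' := by
    rintro g ⟨h1, a, b, h2⟩
    exact ⟨aut_inv h1, a, b, cond_inv h1 h2⟩

theorem mem_LL {g : Equiv.Perm (List Bool)} : g ∈ LL ↔ IsTreeAut g ∧ ∃ a b, Cond g a b := Iff.rfl

/-! ### level transitivity -/

/-- letterwise addition of the word `s` -/
def act : List Bool → List Bool → List Bool
  | [], w => w
  | _ :: _, [] => []
  | a :: s, x :: w => (xor x a) :: act s w

theorem act_act (s w : List Bool) : act s (act s w) = w := by
  induction s generalizing w with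
  | nil => rfl
  | cons a s ih =>
    cases w with
    | nil => rfl
    | cons x w => simp only [act, ih]; cases x <;> cases a <;> rfl

theorem act_len (s w : List Bool) : (act s w).length = w.length := by
  induction s generalizing w with
  | nil => rfl
  | cons a s ih =>
    cases w with
    | nil => rfl
    | cons x w => simp [act, ih]

theorem act_pre (s : List Bool) {v w : List Bool} (h : v <+: w) : act s v <+: act s w := by
  induction s generalizing v w with
  | nil => exact h
  | cons a s ih =>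
    cases v with
    | nil => exact List.nil_prefix
    | cons x v =>
      cases w with
      | nil => simp at h
      | cons y w =>
        rw [List.cons_prefix_cons] at h
        obtain ⟨rfl, h⟩ := h
        simp only [act, List.cons_prefix_cons, true_and]
        exact ih h

def actP (s : List Bool) : Equiv.Perm (List Bool) :=
  ⟨act s, act s, act_act s, act_act s⟩

theorem actP_aut (s : List Bool) : IsTreeAut (actP s) :=
  mkAut (act_len s) (fun _ _ h => act_pre s h) (fun _ _ h => act_pre s h)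

theorem actP_mem (s : List Bool) : actP s ∈ LL := by
  refine ⟨actP_aut s, ?_⟩
  rcases s with _ | ⟨a, _ | ⟨b, s⟩⟩
  · exact ⟨false, false, fun x y t => ⟨t, by cases x <;> cases y <;> rfl⟩⟩
  · exact ⟨a, false, fun x y t => ⟨t, by cases x <;> cases y <;> rfl⟩⟩
  · exact ⟨a, b, fun x y t => ⟨act s t, rfl⟩⟩

theorem trans_level : ∀ (v w : List Bool), v.length = w.length → ∃ s, act s v = w
  | [], [], _ => ⟨[], rfl⟩
  | x :: v, y :: w, h => by
    obtain ⟨s, hs⟩ := trans_level v w (by simpa using h)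
    refine ⟨xor x y :: s, ?_⟩
    simp only [act, hs]
    cases x <;> cases y <;> rfl

/-! ### rigid stabilisers -/

section cut

open Classical in
/-- the part of `g` acting below the words in `F` -/
noncomputable def cutF (g : Equiv.Perm (List Bool)) (F : Finset (List Bool)) (v : List Bool) :
    List Bool := if ∃ u ∈ F, u <+: v then g v else v

variable {g : Equiv.Perm (List Bool)} {n : ℕ}

theorem fix_inv (hf : ∀ v : List Bool, v.length = n → g v = v) :
    ∀ v : List Bool, v.length = n → g⁻¹ v = v := fun v hv => by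
  have := ia g v; rwa [hf v hv] at this

theorem pre_iff (hg : IsTreeAut g) (hf : ∀ v : List Bool, v.length = n → g v = v)
    {u v : List Bool} (hu : u.length = n) : u <+: g v ↔ u <+: v := by
  have := hg.2 u v; rw [hf u hu] at this; exact this.symm

theorem short_fix (hg : IsTreeAut g) (hf : ∀ v : List Bool, v.length = n → g v = v)
    {v : List Bool} (hv : v.length ≤ n) : g v = v := by
  have h1 : v <+: v ++ List.replicate (n - v.length) false := List.prefix_append _ _
  have h2 : (v ++ List.replicate (n - v.length) false).length = n := by simp; omega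
  have h3 := (hg.2 _ _).1 h1
  rw [hf _ h2] at h3
  exact eq_of_pre (hg.1 v) h3 h1

theorem cut_cut (hg : IsTreeAut g) (hf : ∀ v : List Bool, v.length = n → g v = v)
    {F : Finset (List Bool)} (hF : ∀ u ∈ F, u.length = n) (v : List Bool) :
    cutF g⁻¹ F (cutF g F v) = v := by
  unfold cutF
  by_cases h : ∃ u ∈ F, u <+: v
  · have h' : ∃ u ∈ F, u <+: g v := by
      obtain ⟨u, hu, h⟩ := h
      exact ⟨u, hu, (pre_iff hg hf (hF u hu)).2 h⟩
    rw [if_pos h, if_pos h', ia]
  · rw [if_neg h, if_neg h]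

noncomputable def cutP (hg : IsTreeAut g) (hf : ∀ v : List Bool, v.length = n → g v = v)
    {F : Finset (List Bool)} (hF : ∀ u ∈ F, u.length = n) : Equiv.Perm (List Bool) where
  toFun := cutF g F
  invFun := cutF g⁻¹ F
  left_inv := cut_cut hg hf hF
  right_inv := by
    have := cut_cut (aut_inv hg) (fix_inv hf) hF
    rwa [inv_inv] at this

theorem cut_len (hg : IsTreeAut g) (F : Finset (List Bool)) (v : List Bool) :
    (cutF g F v).length = v.length := by
  unfold cutF; split_ifs
  · exact hg.1 v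
  · rfl

theorem cut_pre (hg : IsTreeAut g) (hf : ∀ v : List Bool, v.length = n → g v = v)
    {F : Finset (List Bool)} (hF : ∀ u ∈ F, u.length = n) {v w : List Bool} (h : v <+: w) :
    cutF g F v <+: cutF g F w := by
  unfold cutF
  by_cases h1 : ∃ u ∈ F, u <+: v
  · have h2 : ∃ u ∈ F, u <+: w := by
      obtain ⟨u, hu, h1⟩ := h1
      exact ⟨u, hu, h1.trans h⟩
    rw [if_pos h1, if_pos h2]
    exact (hg.2 _ _).1 h
  · rw [if_neg h1]
    by_cases h2 : ∃ u ∈ F, u <+: w
    · rw [if_pos h2]
      obtain ⟨u, hu, h2⟩ := h2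
      have hl : v.length ≤ n := by
        by_contra hc
        exact h1 ⟨u, hu, List.prefix_of_prefix_length_le h2 h (by rw [hF u hu]; omega)⟩
      have := (hg.2 _ _).1 h
      rwa [short_fix hg hf hl] at this
    · rw [if_neg h2]; exact h

theorem cutP_aut (hg : IsTreeAut g) (hf : ∀ v : List Bool, v.length = n → g v = v)
    {F : Finset (List Bool)} (hF : ∀ u ∈ F, u.length = n) : IsTreeAut (cutP hg hf hF) :=
  mkAut (cut_len hg F) (fun _ _ h => cut_pre hg hf hF h)
    (fun _ _ h => cut_pre (aut_inv hg) (fix_inv hf) hF h)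

theorem fix_cond (hn : 2 ≤ n) (hg : IsTreeAut g)
    (hf : ∀ v : List Bool, v.length = n → g v = v) : Cond g false false := by
  intro x y t
  have h2 : g [x, y] = [x, y] := short_fix hg hf (by simpa using hn)
  have h3 : [x, y] <+: x :: y :: t := ⟨t, rfl⟩
  have h4 := (hg.2 _ _).1 h3
  rw [h2] at h4
  obtain ⟨t', e⟩ := h4
  exact ⟨t', by rw [← e]; cases x <;> cases y <;> rfl⟩

theorem cutP_fix (hg : IsTreeAut g) (hf : ∀ v : List Bool, v.length = n → g v = v)
    {F : Finset (List Bool)} (hF : ∀ u ∈ F, u.length = n) (v : List Bool) (hv : v.length = n) :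
    cutP hg hf hF v = v := by
  change cutF g F v = v
  unfold cutF
  split_ifs
  · exact hf v hv
  · rfl

theorem cutP_mem (hn : 2 ≤ n) (hg : IsTreeAut g)
    (hf : ∀ v : List Bool, v.length = n → g v = v)
    {F : Finset (List Bool)} (hF : ∀ u ∈ F, u.length = n) : cutP hg hf hF ∈ LL :=
  ⟨cutP_aut hg hf hF, false, false, fix_cond hn (cutP_aut hg hf hF) (cutP_fix hg hf hF)⟩

theorem cut_insert (hg : IsTreeAut g) (hf : ∀ v : List Bool, v.length = n → g v = v)
    {F : Finset (List Bool)} {u : List Bool} (hF : ∀ u ∈ F, u.length = n) (hu : u.length = n)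
    (huF : u ∉ F) (v : List Bool) :
    cutF g (insert u F) v = cutF g F (cutF g {u} v) := by
  unfold cutF
  by_cases h : u <+: v
  · have h1 : ∃ u' ∈ insert u F, u' <+: v := ⟨u, Finset.mem_insert_self _ _, h⟩
    have h2 : ∃ u' ∈ ({u} : Finset (List Bool)), u' <+: v := ⟨u, Finset.mem_singleton_self _, h⟩
    have h3 : ¬ ∃ u' ∈ F, u' <+: g v := by
      rintro ⟨u', hu', h'⟩
      have := (pre_iff hg hf (hF u' hu')).1 h'
      have := eq_of_pre ((hF u' hu').trans hu.symm) this h
      exact huF (this ▸ hu')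
    rw [if_pos h1, if_pos h2, if_neg h3]
  · have h2 : ¬ ∃ u' ∈ ({u} : Finset (List Bool)), u' <+: v := by
      rintro ⟨u', hu', h'⟩
      rw [Finset.mem_singleton] at hu'
      exact h (hu' ▸ h')
    rw [if_neg h2]
    by_cases h4 : ∃ u' ∈ F, u' <+: v
    · have h1 : ∃ u' ∈ insert u F, u' <+: v := by
        obtain ⟨u', hu', h'⟩ := h4
        exact ⟨u', Finset.mem_insert_of_mem hu', h'⟩
      rw [if_pos h1, if_pos h4]
    · have h1 : ¬ ∃ u' ∈ insert u F, u' <+: v := by
        rintro ⟨u', hu', h'⟩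
        rcases Finset.mem_insert.1 hu' with rfl | hu'
        · exact h h'
        · exact h4 ⟨u', hu', h'⟩
      rw [if_neg h1, if_neg h4]

theorem cut_mem_rist (hn : 2 ≤ n) (hg : IsTreeAut g)
    (hf : ∀ v : List Bool, v.length = n → g v = v) (F : Finset (List Bool)) :
    ∀ hF : ∀ u ∈ F, u.length = n, cutP hg hf hF ∈ ristLevel LL n := by
  classical
  induction F using Finset.induction_on with
  | empty =>
    intro hF
    have : cutP hg hf hF = 1 := by
      ext1 v
      change cutF g ∅ v = v
      unfold cutF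
      rw [if_neg (by simp)]
    rw [this]; exact one_mem _
  | insert u F huF ih =>
    intro hF
    have hF' : ∀ u ∈ F, u.length = n := fun u' hu' => hF u' (Finset.mem_insert_of_mem hu')
    have hu : u.length = n := hF u (Finset.mem_insert_self _ _)
    have hS : ∀ u' ∈ ({u} : Finset (List Bool)), u'.length = n := by
      intro u' hu'; rw [Finset.mem_singleton] at hu'; rw [hu', hu]
    have e : cutP hg hf hF = cutP hg hf hF' * cutP hg hf hS := by
      ext1 v
      exact cut_insert hg hf hF' hu huF v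
    rw [e]
    refine mul_mem (ih hF') (Subgroup.subset_closure ⟨cutP_mem hn hg hf hS, u, hu, ?_⟩)
    intro v hv
    change cutF g {u} v = v
    unfold cutF
    rw [if_neg]
    rintro ⟨u', hu', h'⟩
    rw [Finset.mem_singleton] at hu'
    exact hv (hu' ▸ h')

theorem fix_mem_rist (hn : 2 ≤ n) (hg : IsTreeAut g)
    (hf : ∀ v : List Bool, v.length = n → g v = v) : g ∈ ristLevel LL n := by
  classical
  let F : Finset (List Bool) :=
    (Finset.univ : Finset (List.Vector Bool n)).image (fun v => v.1)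
  have hF : ∀ u ∈ F, u.length = n := by
    intro u hu
    obtain ⟨v, _, rfl⟩ := Finset.mem_image.1 hu
    exact v.2
  have e : cutP hg hf hF = g := by
    ext1 v
    change cutF g F v = g v
    unfold cutF
    by_cases hl : n ≤ v.length
    · rw [if_pos]
      refine ⟨v.take n, ?_, List.take_prefix _ _⟩
      exact Finset.mem_image.2 ⟨⟨v.take n, by simp [hl]⟩, Finset.mem_univ _, rfl⟩
    · split_ifs
      · rfl
      · exact (short_fix hg hf (by omega)).symm
  rw [← e]
  exact cut_mem_rist hn hg hf F hF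

end cut

theorem rist_mono {n : ℕ} (hn : n ≤ 2) : ristLevel LL 2 ≤ ristLevel LL n := by
  refine Subgroup.closure_mono ?_
  rintro g ⟨hg, u, hu, h⟩
  refine ⟨hg, u.take n, by simp [hu, hn], fun v hv => h v fun h' => hv ?_⟩
  exact (List.take_prefix n u).trans h'

/-- the action on level `n` -/
def rho (n : ℕ) : LL →* Equiv.Perm (List.Vector Bool n) where
  toFun g := ⟨fun v => ⟨g.1 v.1, (g.2.1.1 _).trans v.2⟩,
    fun v => ⟨g.1⁻¹ v.1, ((aut_inv g.2.1).1 _).trans v.2⟩,
    fun v => Subtype.ext (ia g.1 v.1), fun v => Subtype.ext (ai g.1 v.1)⟩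
  map_one' := rfl
  map_mul' _ _ := rfl

theorem index_ne {n : ℕ} (hn : 2 ≤ n) : ((ristLevel LL n).subgroupOf LL).index ≠ 0 := by
  have h1 : (rho n).ker ≤ (ristLevel LL n).subgroupOf LL := by
    intro g hg
    rw [Subgroup.mem_subgroupOf]
    refine fix_mem_rist hn g.2.1 fun v hv => ?_
    have h2 : rho n g = 1 := hg
    have h3 := congrArg (fun f => (f ⟨v, hv⟩ : List.Vector Bool n).1) h2
    exact h3
  have h2 : (rho n).ker.FiniteIndex := inferInstance
  exact (Subgroup.finiteIndex_of_le h1).index_ne_zero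

theorem branch_LL : IsBranch LL := by
  refine ⟨fun g hg => hg.1, fun v w h => ?_, fun n => ?_⟩
  · obtain ⟨s, hs⟩ := trans_level v w h
    exact ⟨actP s, actP_mem s, hs⟩
  · rcases le_or_gt 2 n with hn | hn
    · exact index_ne hn
    · have h1 : (ristLevel LL 2).subgroupOf LL ≤ (ristLevel LL n).subgroupOf LL :=
        Subgroup.comap_mono (rist_mono hn.le)
      have h2 : ((ristLevel LL 2).subgroupOf LL).FiniteIndex := ⟨index_ne le_rfl⟩
      exact (Subgroup.finiteIndex_of_le h1).index_ne_zero

/-! ### the automorphism -/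

/-- interchange of the first two letters -/
def sw : List Bool → List Bool
  | x :: y :: t => y :: x :: t
  | w => w

/-- change of the letter of the words of length one -/
def fl : List Bool → List Bool
  | [x] => [!x]
  | w => w

theorem sw_sw (w : List Bool) : sw (sw w) = w := by
  rcases w with _ | ⟨x, _ | ⟨y, w⟩⟩ <;> rfl

theorem fl_fl (w : List Bool) : fl (fl w) = w := by
  rcases w with _ | ⟨x, _ | ⟨y, w⟩⟩
  · rfl
  · simp [fl]
  · rfl

def swP : Equiv.Perm (List Bool) := ⟨sw, sw, sw_sw, sw_sw⟩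
def flP : Equiv.Perm (List Bool) := ⟨fl, fl, fl_fl, fl_fl⟩

theorem swP_mul : swP * swP = 1 := by ext1 w; exact sw_sw w
theorem flP_mul : flP * flP = 1 := by ext1 w; exact fl_fl w
theorem sw_fl : swP * flP = flP * swP := by
  ext1 w
  change sw (fl w) = fl (sw w)
  rcases w with _ | ⟨x, _ | ⟨y, w⟩⟩ <;> rfl

theorem aut_nil {g : Equiv.Perm (List Bool)} (hg : IsTreeAut g) : g [] = [] :=
  List.length_eq_zero_iff.1 (by rw [hg.1]; rfl)

theorem cond_one {g : Equiv.Perm (List Bool)} {a b : Bool} (hg : IsTreeAut g) (hc : Cond g a b)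
    (x : Bool) : g [x] = [xor x a] := by
  obtain ⟨t', e⟩ := hc x false []
  have h1 : [x] <+: [x, false] := ⟨[false], rfl⟩
  have h2 := (hg.2 _ _).1 h1
  rw [e] at h2
  exact eq_of_pre (v := [xor x a]) (by rw [hg.1]; rfl) h2 ⟨_, rfl⟩

theorem fl_comm {g : Equiv.Perm (List Bool)} (hg : g ∈ LL) : g * flP = flP * g := by
  obtain ⟨hg, a, b, hc⟩ := hg
  ext1 w
  change g (fl w) = fl (g w)
  rcases w with _ | ⟨x, _ | ⟨y, w⟩⟩
  · change g [] = fl (g []); rw [aut_nil hg]; rfl
  · change g [!x] = fl (g [x])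
    rw [cond_one hg hc, cond_one hg hc]
    change _ = [!(xor x a)]
    cases x <;> cases a <;> rfl
  · change g (x :: y :: w) = fl (g (x :: y :: w))
    obtain ⟨t', e⟩ := hc x y w
    rw [e]; rfl

/-- the parity `a + b` of the translation `(a, b)` -/
def par (g : Equiv.Perm (List Bool)) : Bool :=
  match g [false, false] with
  | a :: b :: _ => xor a b
  | _ => false

theorem par_eq {g : Equiv.Perm (List Bool)} {a b : Bool} (hc : Cond g a b) : par g = xor a b := by
  obtain ⟨t', e⟩ := hc false false []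
  unfold par
  rw [e]
  cases a <;> cases b <;> rfl

/-- the automorphism on elements -/
def ph (g : Equiv.Perm (List Bool)) : Equiv.Perm (List Bool) :=
  swP * g * swP * (if par g then flP else 1)

theorem ph_apply_long {g : Equiv.Perm (List Bool)} (x y : Bool) (t : List Bool) :
    ph g (x :: y :: t) = sw (g (y :: x :: t)) := by
  unfold ph
  split_ifs <;> rfl

theorem ph_one {g : Equiv.Perm (List Bool)} {a b : Bool} (hg : IsTreeAut g) (hc : Cond g a b)
    (x : Bool) : ph g [x] = [xor x b] := by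
  have h := cond_one hg hc
  unfold ph
  rw [par_eq hc]
  cases a <;> cases b
  · change sw (g [x]) = _; rw [h]; cases x <;> rfl
  · change sw (g [!x]) = _; rw [h]; cases x <;> rfl
  · change sw (g [!x]) = _; rw [h]; cases x <;> rfl
  · change sw (g [x]) = _; rw [h]; cases x <;> rfl

theorem ph_nil {g : Equiv.Perm (List Bool)} (hg : IsTreeAut g) : ph g [] = [] := by
  unfold ph
  split_ifs
  · change sw (g []) = _; rw [aut_nil hg]; rfl
  · change sw (g []) = _; rw [aut_nil hg]; rfl

theorem ph_cond {g : Equiv.Perm (List Bool)} {a b : Bool} (hc : Cond g a b) : Cond (ph g) b a := by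
  intro x y t
  obtain ⟨t', e⟩ := hc y x t
  exact ⟨t', by rw [ph_apply_long, e]; rfl⟩

theorem ph_len {g : Equiv.Perm (List Bool)} (hg : g ∈ LL) (v : List Bool) :
    (ph g v).length = v.length := by
  obtain ⟨hg, a, b, hc⟩ := hg
  rcases v with _ | ⟨x, _ | ⟨y, v⟩⟩
  · rw [ph_nil hg]
  · rw [ph_one hg hc]; rfl
  · rw [ph_apply_long]
    obtain ⟨t', e⟩ := hc y x v
    have := hg.1 (y :: x :: v)
    rw [e] at this ⊢
    simpa [sw] using this

theorem ph_pre {g : Equiv.Perm (List Bool)} (hg : g ∈ LL) {v w : List Bool} (h : v <+: w) :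
    ph g v <+: ph g w := by
  obtain ⟨hg, a, b, hc⟩ := hg
  obtain ⟨r, rfl⟩ := h
  rcases v with _ | ⟨x, _ | ⟨y, v⟩⟩
  · rw [ph_nil hg]; exact List.nil_prefix
  · rcases r with _ | ⟨z, r⟩
    · exact List.prefix_rfl
    · rw [ph_one hg hc]
      change _ <+: ph g (x :: z :: r)
      rw [ph_apply_long]
      obtain ⟨t', e⟩ := hc z x r
      rw [e]
      exact ⟨_, rfl⟩
  · change ph g (x :: y :: v) <+: ph g (x :: y :: (v ++ r))
    rw [ph_apply_long, ph_apply_long]
    obtain ⟨t', e⟩ := hc y x v
    obtain ⟨t'', e'⟩ := hc y x (v ++ r)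
    have h1 : (y :: x :: v) <+: (y :: x :: (v ++ r)) := ⟨r, rfl⟩
    have h2 := (hg.2 _ _).1 h1
    rw [e, e'] at h2 ⊢
    simp only [List.cons_prefix_cons, true_and] at h2
    simpa [sw] using h2

theorem ph_mul {g h : Equiv.Perm (List Bool)} (hg : g ∈ LL) (hh : h ∈ LL) :
    ph (g * h) = ph g * ph h := by
  have c1 := fl_comm hh
  obtain ⟨hg, a, b, hc⟩ := hg
  obtain ⟨hh, c, d, hd⟩ := hh
  have e3 : par (g * h) = xor (par g) (par h) := by
    rw [par_eq (cond_mul hc hd), par_eq hc, par_eq hd]
    cases a <;> cases b <;> cases c <;> cases d <;> rfl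
  unfold ph
  rw [e3]
  have k1 : ∀ f : Equiv.Perm (List Bool), swP * (swP * f) = f := fun f => by
    rw [← mul_assoc, swP_mul, one_mul]
  have k2 : ∀ f : Equiv.Perm (List Bool), flP * (flP * f) = f := fun f => by
    rw [← mul_assoc, flP_mul, one_mul]
  have k3 : ∀ f : Equiv.Perm (List Bool), flP * (swP * f) = swP * (flP * f) := fun f => by
    rw [← mul_assoc, ← sw_fl, mul_assoc]
  have k4 : ∀ f : Equiv.Perm (List Bool), flP * (h * f) = h * (flP * f) := fun f => by
    rw [← mul_assoc, ← c1, mul_assoc]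
  cases par g <;> cases par h <;>
    simp [mul_assoc, k1, k2, k3, k4, flP_mul, ← sw_fl]

theorem ph_inv {g : Equiv.Perm (List Bool)} (hg : g ∈ LL) : (ph g)⁻¹ = ph g⁻¹ := by
  have h1 : ph g * ph g⁻¹ = 1 := by
    rw [← ph_mul hg (inv_mem hg), mul_inv_cancel]
    have : par 1 = false := rfl
    unfold ph
    rw [this]
    simp [swP_mul]
  exact inv_eq_of_mul_eq_one_right h1

theorem ph_mem {g : Equiv.Perm (List Bool)} (hg : g ∈ LL) : ph g ∈ LL := by
  refine ⟨mkAut (ph_len hg) (fun _ _ h => ph_pre hg h) fun v w h => ?_, ?_⟩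
  · rw [ph_inv hg]; exact ph_pre (inv_mem hg) h
  · obtain ⟨_, a, b, hc⟩ := hg
    exact ⟨b, a, ph_cond hc⟩

theorem ph_ph {g : Equiv.Perm (List Bool)} (hg : g ∈ LL) : ph (ph g) = g := by
  have c1 := fl_comm hg
  obtain ⟨hg, a, b, hc⟩ := hg
  have e : par (ph g) = par g := by
    rw [par_eq hc, par_eq (ph_cond hc)]
    cases a <;> cases b <;> rfl
  have k1 : ∀ f : Equiv.Perm (List Bool), swP * (swP * f) = f := fun f => by
    rw [← mul_assoc, swP_mul, one_mul]
  rw [ph, e, ph]
  cases par g
  · simp [mul_assoc, k1, swP_mul]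
  · simp [mul_assoc, k1, swP_mul, ← sw_fl, flP_mul]

def phi : LL ≃* LL where
  toFun g := ⟨ph g.1, ph_mem g.2⟩
  invFun g := ⟨ph g.1, ph_mem g.2⟩
  left_inv g := Subtype.ext (ph_ph g.2)
  right_inv g := Subtype.ext (ph_ph g.2)
  map_mul' g h := Subtype.ext (ph_mul g.2 h.2)

/-! ### it is not induced by a tree automorphism -/

/-- change of the third letter below the word `[p, q]` -/
def mv (p q : Bool) : List Bool → List Bool
  | x :: y :: z :: t => if x = p ∧ y = q then x :: y :: (!z) :: t else x :: y :: z :: t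
  | w => w

theorem mv_mv (p q : Bool) (w : List Bool) : mv p q (mv p q w) = w := by
  rcases w with _ | ⟨x, _ | ⟨y, _ | ⟨z, w⟩⟩⟩
  · rfl
  · rfl
  · rfl
  · simp only [mv]
    by_cases h : x = p ∧ y = q
    · simp [h, mv]
    · simp [h, mv]

theorem mv_len (p q : Bool) (w : List Bool) : (mv p q w).length = w.length := by
  rcases w with _ | ⟨x, _ | ⟨y, _ | ⟨z, w⟩⟩⟩
  · rfl
  · rfl
  · rfl
  · simp only [mv]
    split_ifs <;> rfl

theorem mv_pre (p q : Bool) {v w : List Bool} (h : v <+: w) : mv p q v <+: mv p q w := by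
  obtain ⟨r, rfl⟩ := h
  rcases v with _ | ⟨x, _ | ⟨y, _ | ⟨z, v⟩⟩⟩
  · exact List.nil_prefix
  · rcases r with _ | ⟨y, _ | ⟨z, r⟩⟩
    · exact List.prefix_rfl
    · exact ⟨_, rfl⟩
    · change [x] <+: mv p q (x :: y :: z :: r)
      simp only [mv]; split_ifs <;> exact ⟨_, rfl⟩
  · rcases r with _ | ⟨z, r⟩
    · exact List.prefix_rfl
    · change [x, y] <+: mv p q (x :: y :: z :: r)
      simp only [mv]; split_ifs <;> exact ⟨_, rfl⟩
  · change mv p q (x :: y :: z :: v) <+: mv p q (x :: y :: z :: (v ++ r))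
    simp only [mv]; split_ifs <;> exact ⟨r, rfl⟩

def mvP (p q : Bool) : Equiv.Perm (List Bool) := ⟨mv p q, mv p q, mv_mv p q, mv_mv p q⟩

theorem mvP_cond (p q : Bool) : Cond (mvP p q) false false := by
  intro x y t
  change ∃ t', mv p q (x :: y :: t) = _
  rcases t with _ | ⟨z, t⟩
  · exact ⟨[], by cases x <;> cases y <;> rfl⟩
  · simp only [mv]
    split_ifs
    · exact ⟨(!z) :: t, by cases x <;> cases y <;> rfl⟩
    · exact ⟨z :: t, by cases x <;> cases y <;> rfl⟩

theorem mvP_mem (p q : Bool) : mvP p q ∈ LL :=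
  ⟨mkAut (mv_len p q) (fun _ _ h => mv_pre p q h) (fun _ _ h => mv_pre p q h), false, false,
    mvP_cond p q⟩

theorem mv_fix {p q : Bool} {w : List Bool} (h : mv p q w ≠ w) : [p, q] <+: w := by
  rcases w with _ | ⟨x, _ | ⟨y, _ | ⟨z, w⟩⟩⟩
  · exact absurd rfl h
  · exact absurd rfl h
  · exact absurd rfl h
  · simp only [mv] at h
    split_ifs at h with h'
    · rw [← h'.1, ← h'.2]; exact ⟨_, rfl⟩
    · exact absurd rfl h

theorem sigma_eq {σ : Equiv.Perm (List Bool)} (hσ : IsTreeAut σ) (p q : Bool)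
    (h : ph (mvP p q) = σ * mvP p q * σ⁻¹) : σ [p, q] = [q, p] := by
  have h1 : ph (mvP p q) [q, p, false] ≠ [q, p, false] := by
    rw [ph_apply_long]
    change sw (mv p q [p, q, false]) ≠ _
    simp [mv, sw]
  rw [h] at h1
  have h2 : mv p q (σ⁻¹ [q, p, false]) ≠ σ⁻¹ [q, p, false] := by
    intro h'
    apply h1
    change σ (mv p q (σ⁻¹ [q, p, false])) = _
    rw [h', ai]
  have h3 := (hσ.2 _ _).1 (mv_fix h2)
  rw [ai] at h3
  exact eq_of_pre (by rw [hσ.1]; rfl) h3 ⟨[false], rfl⟩

/-- There is a branch group `L` of automorphisms of the binary rooted tree with an automorphism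
`φ : L ≃* L` that is not conjugation by any tree automorphism. -/
theorem result : ∃ L : Subgroup (Equiv.Perm (List Bool)), IsBranch L ∧
    ∃ φ : L ≃* L, ∀ σ : Equiv.Perm (List Bool), IsTreeAut σ →
      ∃ g : L, (φ g : Equiv.Perm (List Bool)) ≠ σ * (g : Equiv.Perm (List Bool)) * σ⁻¹ := by
  refine ⟨LL, branch_LL, phi, fun σ hσ => ?_⟩
  by_contra hcon
  push Not at hcon
  have e : ∀ p q, σ [p, q] = [q, p] := fun p q => sigma_eq hσ p q (hcon ⟨mvP p q, mvP_mem p q⟩)
  have h1 : σ [false] <+: [false, false] := by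
    have := (hσ.2 [false] [false, false]).1 ⟨_, rfl⟩
    rwa [e] at this
  have h2 : σ [false] <+: [true, false] := by
    have := (hσ.2 [false] [false, true]).1 ⟨_, rfl⟩
    rwa [e] at this
  have h3 : σ [false] = [false] := eq_of_pre (hσ.1 _) h1 ⟨[false], rfl⟩
  have h4 : σ [false] = [true] := eq_of_pre (hσ.1 _) h2 ⟨[false], rfl⟩
  rw [h3] at h4
  simp at h4

end Pool.Agent.Results.MP_79f901_al.TreeNormaliser
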